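import Pool.Agent.H94st.Grid

/-!
Extremal point-line configurations over `ℤ[√2]` with no lattice structure, neither for the points
nor for the dual points of the lines.
-/

namespace Pool.Agent.Results.MP_fad2aa_co.QuadraticGrids

open Pool.Agent.H94st

/-- For every `ε > 0` and all large `S`, `N` there are `m = 16 S² N⁴` points and `n = S⁴ N²` lines
with at least `m^(2/3) n^(2/3) / 8` incidences such that no part of the points of proportion `ε`,
and no part of the lines of proportion `ε` in the dual plane, has a projective image inside a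
lattice section of any size. -/
theorem result : ∀ ε : ℝ, 0 < ε → ∃ K : ℕ, ∀ S N : ℕ, K ≤ S → K ≤ N →
    ∃ (P : Finset (ℝ × ℝ)) (L : Finset (Set (ℝ × ℝ))), (∀ l ∈ L, IsLine l) ∧
      P.card = 16 * S ^ 2 * N ^ 4 ∧ L.card = S ^ 4 * N ^ 2 ∧
      (P.card : ℝ) ^ (2 / 3 : ℝ) * (L.card : ℝ) ^ (2 / 3 : ℝ) ≤ 8 * (incidences P L : ℝ) ∧
      (∀ P' ⊆ P, ε * P.card ≤ P'.card → ∀ a b : ℕ, ¬ ProjInto P' (latticeSection a b)) ∧
      (∀ D : Finset (ℝ × ℝ), (∀ q ∈ D, dualLine q ∈ L) → ε * L.card ≤ D.card →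
        ∀ a b : ℕ, ¬ ProjInto D (latticeSection a b)) := by
  classical
  intro ε hε
  obtain ⟨K, hK⟩ := exists_nat_gt (2 / ε)
  have hK1 : 1 ≤ K := by
    by_contra h
    have h0 : K = 0 := by omega
    rw [h0] at hK
    have : 0 < 2 / ε := by positivity
    push_cast at hK
    linarith
  have hcK : 2 < ε * K := by
    rw [div_lt_iff₀ hε] at hK
    linarith
  refine ⟨K, ?_⟩
  intro S N hS hN
  have hS1 : 1 ≤ S := le_trans hK1 hS
  have hN1 : 1 ≤ N := le_trans hK1 hN
  have big : ∀ M : ℕ, K ≤ M → 2 < ε * (M : ℝ) := by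
    intro M hM
    have h1 : (K : ℝ) ≤ M := by exact_mod_cast hM
    have h2 : ε * (K : ℝ) ≤ ε * M := mul_le_mul_of_nonneg_left h1 hε.le
    linarith
  have cardP : (box 0 N ×ˢ box (-(S * N : ℕ)) (4 * (S * N))).card = 16 * S ^ 2 * N ^ 4 := by
    rw [Finset.card_product, card_box, card_box]; ring
  have cardQ : (box 0 S ×ˢ box 0 (S * N)).card = S ^ 4 * N ^ 2 := by
    rw [Finset.card_product, card_box, card_box]; ring
  have cardL : ((box 0 S ×ˢ box 0 (S * N)).image dualLine).card = S ^ 4 * N ^ 2 := by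
    rw [Finset.card_image_of_injective _ dualLine_inj, cardQ]
  refine ⟨box 0 N ×ˢ box (-(S * N : ℕ)) (4 * (S * N)),
    (box 0 S ×ˢ box 0 (S * N)).image dualLine, ?_, cardP, cardL, ?_, ?_, ?_⟩
  · intro l hl
    obtain ⟨q, _, rfl⟩ := Finset.mem_image.mp hl
    exact isLine_dualLine q
  · rw [cardP, cardL]
    have h1 := rpow_bound S N
    have h2 : ((S ^ 4 * N ^ 4 : ℕ) : ℝ) ≤ (incidences (box 0 N ×ˢ box (-(S * N : ℕ)) (4 * (S * N)))
      ((box 0 S ×ˢ box 0 (S * N)).image dualLine) : ℝ) := by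
      have h3 := incid_bound (S := S) (N := N)
      have h4 : S ^ 4 * N ^ 4 = N ^ 2 * (S ^ 2 * (S * N) ^ 2) := by ring
      rw [← h4] at h3
      exact_mod_cast h3
    linarith
  · intro P' hP' hc a b
    have hU : (box 0 N).Nonempty := by
      rw [← Finset.card_pos, card_box]; positivity
    have hM : K ≤ 4 * (S * N) := by nlinarith
    refine no_proj hU (M := 4 * (S * N)) (le_trans hK1 hM) (big _ hM) hP' ?_ a b
    rw [cardP] at hc
    rw [card_box]
    have e : N ^ 2 * (4 * (S * N)) ^ 2 = 16 * S ^ 2 * N ^ 4 := by ring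
    rw [e]
    exact hc
  · intro D hD hc a b
    have hU : (box 0 S).Nonempty := by
      rw [← Finset.card_pos, card_box]; positivity
    have hM : K ≤ S * N := by nlinarith
    have hsub : D ⊆ box 0 S ×ˢ box 0 (S * N) := by
      intro q hq
      obtain ⟨r, hr, e⟩ := Finset.mem_image.mp (hD q hq)
      rw [← dualLine_inj e]
      exact hr
    refine no_proj hU (M := S * N) (le_trans hK1 hM) (big _ hM) hsub ?_ a b
    rw [cardL] at hc
    rw [card_box]
    have e : S ^ 2 * (S * N) ^ 2 = S ^ 4 * N ^ 2 := by ring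
    rw [e]
    exact hc

end Pool.Agent.Results.MP_fad2aa_co.QuadraticGrids
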